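import Mathlib
import Pool.Agent.Lib.MP_14ee70_nt.TY.Fin.Main

/-!
The typical size of `t_n`, the length of the shortest block of consecutive integers starting at `n`
that has a subset of at least two elements with square product: for almost all `n` it lies between
`exp (c √(log n log log n))`, for every `c < 1/√2`, and `exp (√(log n) (log log n)^4)`.
-/

namespace Pool.Agent.Results.MP_14ee70_nt.TypicalOrder

open Filter Real

/-- The block `{n, n+1, …, n+t}` contains a subset with at least two elements whose product is a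
perfect square. -/
def HasSquareProduct (n t : ℕ) : Prop :=
  ∃ S : Finset ℕ, S ⊆ Finset.Icc n (n + t) ∧ 2 ≤ S.card ∧ IsSquare (∏ a ∈ S, a)

/-- `t_n`: the least `t` such that `{n, …, n+t}` contains a subset with at least two elements
whose product is a perfect square. -/
noncomputable def shortest (n : ℕ) : ℕ := sInf {t : ℕ | HasSquareProduct n t}

theorem hasSquareProduct_shortest {n : ℕ} (hn : 1 ≤ n) : HasSquareProduct n (shortest n) := by
  have h : (3 * n) ∈ {t : ℕ | HasSquareProduct n t} := by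
    refine ⟨{n, 4 * n}, ?_, ?_, ?_⟩
    · intro a ha
      simp only [Finset.mem_insert, Finset.mem_singleton] at ha
      rw [Finset.mem_Icc]
      omega
    · rw [Finset.card_pair (by omega)]
    · rw [Finset.prod_pair (by omega)]
      exact ⟨2 * n, by ring⟩
  exact Nat.sInf_mem ⟨_, h⟩

theorem result : ∀ c : ℝ, 0 < c → 2 * c ^ 2 < 1 → ∀ᶠ N : ℕ in atTop,
    ({n : ℕ | 1 ≤ n ∧ n ≤ N ∧ ¬ (exp (c * √(log n * log (log n))) < shortest n ∧
      (shortest n : ℝ) ≤ exp (√(log n) * log (log n) ^ 4))}.ncard : ℝ) ≤ N / log N ^ 4 := by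
  classical
  intro c hc hc2
  filter_upwards [MP14ee70.TY.both c hc hc2] with N hN
  refine le_trans ?_ hN
  have h2 : {n : ℕ | 1 ≤ n ∧ n ≤ N ∧ ¬ (exp (c * √(log n * log (log n))) < shortest n ∧
        (shortest n : ℝ) ≤ exp (√(log n) * log (log n) ^ 4))}
      ⊆ ((Finset.Icc 1 N).filter (fun n =>
        (∃ t : ℕ, (t : ℝ) ≤ MP14ee70.TY.loB c n ∧ MP14ee70.TY.HasSq n t) ∨
        ¬ ∃ t : ℕ, (t : ℝ) ≤ MP14ee70.TY.upB n ∧ MP14ee70.TY.HasSq n t) : Finset ℕ) := by
    intro n hn
    obtain ⟨hn1, hnN, hn⟩ := hn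
    simp only [Finset.coe_filter, Finset.mem_Icc, Set.mem_ofPred_eq]
    refine ⟨⟨hn1, hnN⟩, ?_⟩
    by_contra hcon
    rw [not_or, not_not] at hcon
    obtain ⟨hlo, t, ht, hst⟩ := hcon
    apply hn
    constructor
    · by_contra hle
      rw [not_lt] at hle
      exact hlo ⟨shortest n, hle, hasSquareProduct_shortest hn1⟩
    · have h1 : shortest n ≤ t := Nat.sInf_le hst
      have h3 : (shortest n : ℝ) ≤ t := by exact_mod_cast h1
      exact h3.trans ht
  have h4 := Set.ncard_le_ncard h2 (Finset.finite_toSet _)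
  rw [Set.ncard_coe_finset] at h4
  convert (Nat.cast_le (α := ℝ)).mpr h4 using 3

end Pool.Agent.Results.MP_14ee70_nt.TypicalOrder
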