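import Mathlib
import Pool.Agent.Lib.MP_14ee70_nt.Asym

/-!
The length `t_n` of the shortest block of consecutive integers starting at `n` that has a subset
of at least two elements with square product is at most `n ^ (3/7 + eps)`, for every positive
`eps` and all large `n`.
-/

namespace Pool.Agent.Results.MP_14ee70_nt.UpperThreeSevenths

/-- The block `{n, n+1, …, n+t}` contains a subset with at least two elements whose product is a
perfect square. -/
def HasSquareProduct (n t : ℕ) : Prop :=
  ∃ S : Finset ℕ, S ⊆ Finset.Icc n (n + t) ∧ 2 ≤ S.card ∧ IsSquare (∏ a ∈ S, a)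

/-- `t_n`: the least `t` such that `{n, …, n+t}` contains a subset with at least two elements
whose product is a perfect square. -/
noncomputable def shortest (n : ℕ) : ℕ := sInf {t : ℕ | HasSquareProduct n t}

theorem result : ∀ ε : ℝ, 0 < ε → ∀ᶠ n : ℕ in Filter.atTop,
    HasSquareProduct n (shortest n) ∧ (shortest n : ℝ) ≤ (n : ℝ) ^ (3 / 7 + ε) := by
  intro ε hε
  filter_upwards [MP14ee70.main_all ε hε] with n hn
  obtain ⟨t, hS, ht⟩ := hn
  have hmem : t ∈ {t : ℕ | HasSquareProduct n t} := hS
  have hne : {t : ℕ | HasSquareProduct n t}.Nonempty := ⟨t, hmem⟩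
  refine ⟨Nat.sInf_mem hne, ?_⟩
  have h1 : shortest n ≤ t := Nat.sInf_le hmem
  have h2 : (shortest n : ℝ) ≤ t := by exact_mod_cast h1
  linarith

end Pool.Agent.Results.MP_14ee70_nt.UpperThreeSevenths
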